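import Mathlib

set_option autoImplicit false

namespace Pool.Agent.H679Z.Rubel

open Filter Topology Metric Set

theorem not_ev_const {f : ℂ → ℂ} (hf : Differentiable ℂ f) (hn : ∃ a b, f a ≠ f b) (p c : ℂ) :
    ¬ ∀ᶠ z in 𝓝 p, f z = c := by
  intro h
  obtain ⟨a, b, hab⟩ := hn
  have h1 : AnalyticOnNhd ℂ f univ := fun z _ => hf.analyticAt z
  have h2 : f = fun _ => c := AnalyticOnNhd.eq_of_eventuallyEq h1 analyticOnNhd_const (z₀ := p) h
  apply hab
  rw [h2]

theorem isOpenMap_of {f : ℂ → ℂ} (hf : Differentiable ℂ f) (hn : ∃ a b, f a ≠ f b) :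
    IsOpenMap f := by
  have h1 : AnalyticOnNhd ℂ f univ := fun z _ => hf.analyticAt z
  rcases h1.is_constant_or_isOpenMap with ⟨w, hw⟩ | h
  · obtain ⟨a, b, hab⟩ := hn
    exact absurd ((hw a).trans (hw b).symm) hab
  · exact h

theorem exists_large {f : ℂ → ℂ} (hf : Differentiable ℂ f) (hn : ∃ a b, f a ≠ f b) (L : ℝ) :
    ∃ c, L < ‖f c‖ := by
  by_contra h
  push Not at h
  obtain ⟨a, b, hab⟩ := hn
  refine hab (hf.apply_eq_apply_of_bounded ?_ a b)
  exact isBounded_iff_forall_norm_le.2 ⟨L, by rintro _ ⟨z, rfl⟩; exact h z⟩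

theorem dense_range {f : ℂ → ℂ} (hf : Differentiable ℂ f) (hn : ∃ a b, f a ≠ f b) :
    Dense (range f) := by
  by_contra h
  rw [Metric.dense_iff] at h
  push Not at h
  obtain ⟨w, r, hr, hw⟩ := h
  have h1 : ∀ z, r ≤ ‖f z - w‖ := by
    intro z
    by_contra hz
    have : f z ∈ ball w r ∩ range f := ⟨by rw [mem_ball, dist_eq_norm]; linarith, z, rfl⟩
    rw [hw] at this
    exact this
  have h2 : ∀ z, f z - w ≠ 0 := fun z h0 => by
    have := h1 z
    rw [h0, norm_zero] at this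
    linarith
  have h3 : Differentiable ℂ fun z => (f z - w)⁻¹ := (hf.sub_const w).inv h2
  obtain ⟨a, b, hab⟩ := hn
  have h4 := h3.apply_eq_apply_of_bounded (isBounded_iff_forall_norm_le.2 ⟨r⁻¹, by
    rintro _ ⟨z, rfl⟩
    rw [norm_inv]
    exact inv_anti₀ hr (h1 z)⟩) a b
  exact hab (sub_left_injective (inv_injective h4))

theorem local_root {f : ℂ → ℂ} (hf : Differentiable ℂ f) (hn : ∃ a b, f a ≠ f b) (p : ℂ) :
    ∃ m : ℕ, m ≠ 0 ∧ ∃ φ : ℂ → ℂ, AnalyticAt ℂ φ 0 ∧ φ 0 = p ∧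
      ∀ᶠ s in 𝓝 (0 : ℂ), f (φ s) = f p + s ^ m := by
  have h1 : AnalyticAt ℂ (fun z => f z - f p) p := (hf.analyticAt p).sub analyticAt_const
  obtain ⟨m, g, hg, hg0, he⟩ := h1.exists_eventuallyEq_pow_smul_nonzero_iff.2 (by
    intro h
    exact not_ev_const hf hn p (f p) (h.mono fun z hz => sub_eq_zero.1 hz))
  have hm : m ≠ 0 := by
    rintro rfl
    have := he.self_of_nhds
    simp at this
    exact hg0 this.symm
  obtain ⟨a, ha⟩ := IsAlgClosed.exists_pow_nat_eq (g p) (Nat.pos_of_ne_zero hm)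
  have ha0 : a ≠ 0 := by
    rintro rfl
    rw [zero_pow hm] at ha
    exact hg0 ha.symm
  let G : ℂ → ℂ := fun z => a * Complex.exp (Complex.log (g z / g p) / m)
  have hq : AnalyticAt ℂ (fun z => g z / g p) p := hg.div analyticAt_const hg0
  have hG : AnalyticAt ℂ G p := by
    refine analyticAt_const.mul (AnalyticAt.cexp (AnalyticAt.div ?_ analyticAt_const ?_))
    · refine hq.clog ?_
      simp [div_self hg0]
    · exact_mod_cast hm
  have hGp : G p = a := by simp [G, div_self hg0]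
  have hGm : ∀ᶠ z in 𝓝 p, G z ^ m = g z := by
    filter_upwards [hg.continuousAt.eventually_ne hg0] with z hz
    have hmc : (m : ℂ) ≠ 0 := by exact_mod_cast hm
    simp only [G]
    rw [mul_pow, ← Complex.exp_nat_mul, mul_div_cancel₀ _ hmc, Complex.exp_log (div_ne_zero hz hg0),
      ha, mul_div_cancel₀ _ hg0]
  let u : ℂ → ℂ := fun z => (z - p) * G z
  have hu : AnalyticAt ℂ u p := (analyticAt_id.sub analyticAt_const).mul hG
  have hup : u p = 0 := by simp [u]
  have hud : deriv u p ≠ 0 := by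
    have h2 : HasDerivAt u (1 * G p + (p - p) * deriv G p) p :=
      ((hasDerivAt_id p).sub_const p).mul hG.differentiableAt.hasDerivAt
    rw [h2.deriv, hGp]
    simpa using ha0
  have hfu : ∀ᶠ z in 𝓝 p, f z = f p + u z ^ m := by
    filter_upwards [he, hGm] with z h2 h3
    simp only [u]
    rw [mul_pow, h3, ← smul_eq_mul, ← h2]
    ring
  let φ := hu.hasStrictDerivAt.localInverse _ _ _ hud
  have hφ : AnalyticAt ℂ φ (u p) := hu.analyticAt_localInverse hud
  have hφp : φ (u p) = p := HasStrictFDerivAt.localInverse_apply_image ..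
  have hr : ∀ᶠ s in 𝓝 (u p), u (φ s) = s := HasStrictDerivAt.eventually_right_inverse ..
  rw [hup] at hφ hφp hr
  refine ⟨m, hm, φ, hφ, hφp, ?_⟩
  have ht : Tendsto φ (𝓝 0) (𝓝 p) := by
    have := hφ.continuousAt.tendsto
    rwa [hφp] at this
  filter_upwards [hr, ht.eventually hfu] with s h2 h3
  rw [h3, h2]

theorem exists_disc {f g : ℂ → ℂ} (hf : Differentiable ℂ f) (hfn : ∃ a b, f a ≠ f b)
    (hg : Differentiable ℂ g) (hgn : ∃ a b, g a ≠ g b) (p q : ℂ) :
    ∃ α β : ℂ → ℂ, AnalyticAt ℂ α 0 ∧ AnalyticAt ℂ β 0 ∧ α 0 = p ∧ β 0 = q ∧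
      (∀ᶠ t in 𝓝 (0 : ℂ), f (α t) + g (β t) = f p + g q) ∧ ¬ ∀ᶠ t in 𝓝 (0 : ℂ), α t = p := by
  obtain ⟨m, hm, φ, hφ, hφ0, hφe⟩ := local_root hf hfn p
  obtain ⟨k, hk, ψ, hψ, hψ0, hψe⟩ := local_root hg hgn q
  obtain ⟨ζ, hζ⟩ := IsAlgClosed.exists_pow_nat_eq (-1 : ℂ) (Nat.pos_of_ne_zero hk)
  have a1 : AnalyticAt ℂ (fun t : ℂ => t ^ k) 0 := analyticAt_id.pow k
  have a2 : AnalyticAt ℂ (fun t : ℂ => ζ * t ^ m) 0 := analyticAt_const.mul (analyticAt_id.pow m)
  have z1 : (0 : ℂ) ^ k = 0 := zero_pow hk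
  have z2 : ζ * (0 : ℂ) ^ m = 0 := by rw [zero_pow hm, mul_zero]
  have t1 : Tendsto (fun t : ℂ => t ^ k) (𝓝 0) (𝓝 0) := by
    have := a1.continuousAt.tendsto
    rwa [z1] at this
  have t2 : Tendsto (fun t : ℂ => ζ * t ^ m) (𝓝 0) (𝓝 0) := by
    have := a2.continuousAt.tendsto
    rwa [z2] at this
  refine ⟨fun t => φ (t ^ k), fun t => ψ (ζ * t ^ m), ?_, ?_, ?_, ?_, ?_, ?_⟩
  · exact AnalyticAt.comp_of_eq hφ a1 z1
  · exact AnalyticAt.comp_of_eq hψ a2 z2
  · simp only [z1, hφ0]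
  · simp only [z2, hψ0]
  · filter_upwards [t1.eventually hφe, t2.eventually hψe] with t h1 h2
    rw [h1, h2, mul_pow, hζ, ← pow_mul, ← pow_mul, mul_comm k m]
    ring
  · intro h
    have h3 : ∀ᶠ t in 𝓝 (0 : ℂ), t = 0 := by
      filter_upwards [t1.eventually hφe, h] with t h1 h2
      rw [h2] at h1
      have h4 : (t ^ k) ^ m = 0 := by simpa using h1.symm
      exact pow_eq_zero_iff hk |>.1 (pow_eq_zero_iff hm |>.1 h4)
    exact not_ev_const (f := fun t : ℂ => t) differentiable_id ⟨0, 1, zero_ne_one⟩ 0 0 h3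

theorem bloch {f : ℂ → ℂ} (hf : Differentiable ℂ f) (hn : ∃ a b, f a ≠ f b) {R : ℝ} (hR : 0 < R) :
    ∃ (a : ℂ) (φ : ℂ → ℂ), DifferentiableOn ℂ φ (ball (f a) R) ∧
      (∀ w ∈ ball (f a) R, f (φ w) = w) ∧ ∀ᶠ z in 𝓝 a, φ (f z) = z := by
  have hd : Differentiable ℂ (deriv f) := fun z => (hf.analyticAt z).deriv.differentiableAt
  obtain ⟨z0, hz0⟩ : ∃ z0, deriv f z0 ≠ 0 := by
    by_contra h
    push Not at h
    obtain ⟨a, b, hab⟩ := hn
    exact hab (is_const_of_deriv_eq_zero hf h a b)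
  have hd0 : 0 < ‖deriv f z0‖ := norm_pos_iff.2 hz0
  set ρ : ℝ := 48 * R / ‖deriv f z0‖ with hρ
  have hρ0 : 0 < ρ := by positivity
  let Q : ℂ → ℝ := fun z => (ρ - ‖z - z0‖) * ‖deriv f z‖
  have hQ : Continuous Q := by
    have := hd.continuous
    fun_prop
  obtain ⟨a, ha, hmax⟩ := (isCompact_closedBall z0 ρ).exists_isMaxOn
    ⟨z0, mem_closedBall_self hρ0.le⟩ hQ.continuousOn
  have hQa : 48 * R ≤ Q a := by
    have := hmax (mem_closedBall_self hρ0.le)
    simp only [Q, sub_self, norm_zero, sub_zero, mem_ofPred_eq] at this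
    rw [hρ, div_mul_cancel₀ _ hd0.ne'] at this
    exact this
  rw [mem_closedBall, dist_eq_norm] at ha
  set r : ℝ := (ρ - ‖a - z0‖) / 2 with hr
  set D : ℝ := ‖deriv f a‖ with hD
  have hQa' : Q a = 2 * r * D := by simp only [Q, hr, hD]; ring
  have hr0' : 0 ≤ r := by rw [hr]; linarith
  have hD0' : 0 ≤ D := norm_nonneg _
  have hrD : 24 * R ≤ r * D := by linarith
  have hr0 : 0 < r := by
    rcases hr0'.eq_or_lt with h | h
    · rw [← h] at hrD
      linarith
    · exact h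
  have hD0 : 0 < D := by
    rcases hD0'.eq_or_lt with h | h
    · rw [← h] at hrD
      linarith
    · exact h
  have hc0 : deriv f a ≠ 0 := norm_pos_iff.1 hD0
  have hb : ∀ z ∈ ball a r, ‖deriv f z‖ ≤ 2 * D := by
    intro z hz
    rw [mem_ball, dist_eq_norm] at hz
    have h1 : ‖z - z0‖ ≤ ‖z - a‖ + ‖a - z0‖ := norm_sub_le_norm_sub_add_norm_sub _ _ _
    have h2 : r ≤ ρ - ‖z - z0‖ := by linarith
    have h3 : Q z ≤ Q a := hmax (by rw [mem_closedBall, dist_eq_norm]; linarith)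
    have h4 : r * ‖deriv f z‖ ≤ Q z := mul_le_mul_of_nonneg_right h2 (norm_nonneg _)
    have h5 : r * ‖deriv f z‖ ≤ r * (2 * D) := by linarith
    exact le_of_mul_le_mul_left h5 hr0
  have hs : ∀ z ∈ ball a (r / 6), ‖deriv f z - deriv f a‖ ≤ D / 2 := by
    intro z hz
    have h1 := Complex.dist_le_div_mul_dist_of_mapsTo_ball (f := deriv f) (c := a) (z := z)
      (R₁ := r) (R₂ := 3 * D) hd.differentiableOn (fun y hy => by
        rw [mem_closedBall, dist_eq_norm]
        have := norm_sub_le (deriv f y) (deriv f a)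
        have := hb y hy
        linarith) (ball_subset_ball (by linarith) hz)
    rw [dist_eq_norm] at h1
    rw [mem_ball] at hz
    have h2 : 3 * D / r * dist z a ≤ 3 * D / r * (r / 6) :=
      mul_le_mul_of_nonneg_left hz.le (by positivity)
    have h3 : 3 * D / r * (r / 6) = D / 2 := by field_simp; ring
    linarith
  let g : ℂ → ℂ := fun z => f z / deriv f a
  have hgd : ∀ z, HasDerivAt g (deriv f z / deriv f a) z := fun z =>
    (hf z).hasDerivAt.div_const _
  have happ : ApproximatesLinearOn g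
      ((ContinuousLinearEquiv.refl ℂ ℂ : ℂ ≃L[ℂ] ℂ) : ℂ →L[ℂ] ℂ) (ball a (r / 6)) (1 / 2) := by
    intro x hx y hy
    have h1 := (convex_ball a (r / 6)).norm_image_sub_le_of_norm_hasDerivWithin_le
      (f := fun z => g z - z) (f' := fun z => deriv f z / deriv f a - 1) (C := 1 / 2)
      (fun z _ => ((hgd z).sub (hasDerivAt_id z)).hasDerivWithinAt) (fun z hz => by
        have e : deriv f z / deriv f a - 1 = (deriv f z - deriv f a) / deriv f a := by
          field_simp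
        rw [e, norm_div, div_le_iff₀ hD0]
        have := hs z hz
        linarith) hy hx
    have e : g x - g y - ((ContinuousLinearEquiv.refl ℂ ℂ : ℂ ≃L[ℂ] ℂ) : ℂ →L[ℂ] ℂ) (x - y) =
        g x - x - (g y - y) := by
      simp
      ring
    rw [e]
    simpa using h1
  have hN : ‖((ContinuousLinearEquiv.refl ℂ ℂ : ℂ ≃L[ℂ] ℂ).symm : ℂ →L[ℂ] ℂ)‖₊ = 1 := by
    simp
  have hc : Subsingleton ℂ ∨ (1 / 2 : NNReal) <
      ‖((ContinuousLinearEquiv.refl ℂ ℂ : ℂ ≃L[ℂ] ℂ).symm : ℂ →L[ℂ] ℂ)‖₊⁻¹ := by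
    right
    rw [hN]
    norm_num
  let e := happ.toOpenPartialHomeomorph g _ hc isOpen_ball
  have htar : ∀ w ∈ ball (f a) R, w / deriv f a ∈ e.target := by
    intro w hw
    refine happ.closedBall_subset_target hc isOpen_ball (b := a) (ε := r / 12) (by positivity)
      (closedBall_subset_ball (by linarith)) ?_
    rw [hN, mem_closedBall, dist_eq_norm]
    rw [mem_ball, dist_eq_norm] at hw
    have e1 : w / deriv f a - g a = (w - f a) / deriv f a := by
      simp only [g]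
      ring
    rw [e1, norm_div, div_le_iff₀ hD0]
    push_cast
    nlinarith
  refine ⟨a, fun w => e.symm (w / deriv f a), fun w hw => ?_, fun w hw => ?_, ?_⟩
  · have h1 : e.symm (w / deriv f a) ∈ ball a (r / 6) := e.map_target (htar w hw)
    have h2 : deriv f (e.symm (w / deriv f a)) ≠ 0 := by
      intro h0
      have := hs _ h1
      rw [h0, zero_sub, norm_neg] at this
      linarith
    have h3 := e.hasDerivAt_symm (htar w hw) (div_ne_zero h2 hc0) (hgd _)
    exact (h3.differentiableAt.comp w (differentiableAt_id.div_const _)).differentiableWithinAt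
  · have h1 : g (e.symm (w / deriv f a)) = w / deriv f a := e.right_inv (htar w hw)
    exact (div_left_inj' hc0).1 h1
  · filter_upwards [ball_mem_nhds a (show 0 < r / 6 by positivity)] with z hz
    exact e.left_inv hz

end Pool.Agent.H679Z.Rubel
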