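import Pool.Agent.H679Z.Rubel.Local

set_option autoImplicit false

namespace Pool.Agent.H679Z.Rubel

open Filter Topology Metric Set

theorem le_of_pow_mul_le {a m κ : ℝ} (hκ : 0 < κ) (hm : 0 ≤ m) (h : ∀ N : ℕ, a ^ N * κ ≤ m ^ N) :
    a ≤ m := by
  by_contra hc
  push Not at hc
  have ha : 0 < a := lt_of_le_of_lt hm hc
  obtain ⟨N, hN⟩ := exists_pow_lt_of_lt_one hκ ((div_lt_one ha).2 hc)
  rw [div_pow, div_lt_iff₀ (pow_pos ha N)] at hN
  have := h N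
  linarith

/-- The part of the fibre curve over a closed annulus. -/
def ann (f g : ℂ → ℂ) (w c : ℂ) (r R : ℝ) : Set (ℂ × ℂ) :=
  {q | f q.1 + g q.2 = w ∧ r ≤ ‖q.1 - c‖ ∧ ‖q.1 - c‖ ≤ R}

variable {f g : ℂ → ℂ}

theorem curve_max (hf : Differentiable ℂ f) (hfn : ∃ a b, f a ≠ f b)
    (hg : Differentiable ℂ g) (hgn : ∃ a b, g a ≠ g b) {w c c2 : ℂ} {r R B m : ℝ} (hm : 0 ≤ m)
    {G : ℂ × ℂ → ℂ} (hG : ∀ q ∈ ann f g w c r R, ∀ᶠ q' in 𝓝 q, DifferentiableAt ℂ G q')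
    (hB : ∀ q ∈ ann f g w c r R, ‖G q‖ * ‖q.2 - c2‖ ≤ B)
    (hbd : ∀ q ∈ ann f g w c r R, ‖q.1 - c‖ = r ∨ ‖q.1 - c‖ = R → ‖G q‖ ≤ m) :
    ∀ q ∈ ann f g w c r R, ‖G q‖ ≤ m := by
  intro p hp
  by_contra hc
  push Not at hc
  have hfc := hf.continuous
  have hgc := hg.continuous
  have hA : IsClosed (ann f g w c r R) := by
    have c1 : Continuous fun q : ℂ × ℂ => f q.1 + g q.2 := by fun_prop
    have c2 : Continuous fun q : ℂ × ℂ => ‖q.1 - c‖ := by fun_prop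
    exact IsClosed.inter (isClosed_eq c1 continuous_const)
      (IsClosed.inter (isClosed_le continuous_const c2) (isClosed_le c2 continuous_const))
  have hGc : ContinuousOn (fun q => ‖G q‖) (ann f g w c r R) := fun q hq =>
    (hG q hq).self_of_nhds.continuousAt.norm.continuousWithinAt
  have hcomp : ∀ μ : ℝ, 0 < μ → IsCompact (ann f g w c r R ∩ (fun q => ‖G q‖) ⁻¹' Ici μ) := by
    intro μ hμ
    refine Metric.isCompact_of_isClosed_isBounded
      (hGc.preimage_isClosed_of_isClosed hA isClosed_Ici) ?_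
    refine ((isBounded_closedBall (x := c) (r := R)).prod
      (isBounded_closedBall (x := c2) (r := B / μ))).subset ?_
    rintro q ⟨hq, hq2⟩
    refine ⟨by rw [mem_closedBall, dist_eq_norm]; exact hq.2.2, ?_⟩
    rw [mem_closedBall, dist_eq_norm, le_div_iff₀ hμ]
    have h1 := hB q hq
    have h2 : μ ≤ ‖G q‖ := hq2
    nlinarith [norm_nonneg (q.2 - c2)]
  have hp0 : 0 < ‖G p‖ := lt_of_le_of_lt hm hc
  obtain ⟨q1, hq1, hmax1⟩ := (hcomp _ hp0).exists_isMaxOn ⟨p, hp, le_refl ‖G p‖⟩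
    (hGc.mono inter_subset_left)
  have hq1p : ‖G p‖ ≤ ‖G q1‖ := hq1.2
  have hall : ∀ q ∈ ann f g w c r R, ‖G q‖ ≤ ‖G q1‖ := by
    intro q hq
    by_cases h : ‖G p‖ ≤ ‖G q‖
    · exact hmax1 ⟨hq, h⟩
    · linarith
  obtain ⟨q0, hq0, hmax0⟩ := (hcomp ‖G q1‖ (by linarith)).exists_isMaxOn
    (f := fun q => ‖q.1 - c‖) ⟨q1, hq1.1, le_refl ‖G q1‖⟩ (by fun_prop)
  have hq0' : ‖G q1‖ ≤ ‖G q0‖ := hq0.2
  have hne : ¬ (‖q0.1 - c‖ = r ∨ ‖q0.1 - c‖ = R) := fun h => by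
    have := hbd q0 hq0.1 h
    linarith
  have hr : r < ‖q0.1 - c‖ := lt_of_le_of_ne hq0.1.2.1 fun h => hne (Or.inl h.symm)
  have hR : ‖q0.1 - c‖ < R := lt_of_le_of_ne hq0.1.2.2 fun h => hne (Or.inr h)
  obtain ⟨α, β, hα, hβ, hα0, hβ0, hev, hnc⟩ := exists_disc hf hfn hg hgn q0.1 q0.2
  have htα : Tendsto (fun t => ‖α t - c‖) (𝓝 0) (𝓝 ‖q0.1 - c‖) := by
    rw [← hα0]
    exact (hα.continuousAt.sub continuousAt_const).norm.tendsto
  have hin : ∀ᶠ t in 𝓝 (0 : ℂ), (α t, β t) ∈ ann f g w c r R := by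
    filter_upwards [hev, htα.eventually (lt_mem_nhds hr), htα.eventually (gt_mem_nhds hR)]
      with t h1 h2 h3
    exact ⟨h1.trans hq0.1.1, h2.le, h3.le⟩
  have e0 : (α 0, β 0) = q0 := by rw [hα0, hβ0]
  have htq : Tendsto (fun t => (α t, β t)) (𝓝 0) (𝓝 q0) := by
    rw [← e0]
    exact (hα.continuousAt.prodMk hβ.continuousAt).tendsto
  have hdiff : ∀ᶠ t in 𝓝 (0 : ℂ), DifferentiableAt ℂ (fun t => G (α t, β t)) t := by
    filter_upwards [htq.eventually (hG q0 hq0.1), hα.eventually_analyticAt,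
      hβ.eventually_analyticAt] with t h1 h2 h3
    exact h1.comp t (h2.differentiableAt.prodMk h3.differentiableAt)
  have h1 := Complex.norm_eventually_eq_of_isLocalMax hdiff (by
    filter_upwards [hin] with t ht
    change ‖G (α t, β t)‖ ≤ ‖G (α 0, β 0)‖
    rw [e0]
    exact (hall _ ht).trans hq0')
  have h2 := Complex.eventually_eq_of_isLocalMax_norm (f := fun t => α t - c) (c := 0)
    (hα.eventually_analyticAt.mono fun t ht => ht.differentiableAt.sub_const c) (by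
      filter_upwards [hin, h1] with t ht h3
      change ‖α t - c‖ ≤ ‖α 0 - c‖
      rw [hα0]
      refine hmax0 (a := (α t, β t)) ⟨ht, ?_⟩
      change ‖G q1‖ ≤ ‖G (α t, β t)‖
      rw [h3, e0]
      exact hq0')
  exact hnc (h2.mono fun t ht => by rw [← hα0]; exact sub_left_injective ht)

theorem curve_max' (hf : Differentiable ℂ f) (hfn : ∃ a b, f a ≠ f b)
    (hg : Differentiable ℂ g) (hgn : ∃ a b, g a ≠ g b) {w c : ℂ} {r R M m : ℝ} (hm : 0 ≤ m)
    {G : ℂ × ℂ → ℂ} (hG : ∀ q ∈ ann f g w c r R, ∀ᶠ q' in 𝓝 q, DifferentiableAt ℂ G q')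
    (hB : ∀ q ∈ ann f g w c r R, ‖G q‖ ≤ M)
    (hbd : ∀ q ∈ ann f g w c r R, ‖q.1 - c‖ = r ∨ ‖q.1 - c‖ = R → ‖G q‖ ≤ m) :
    ∀ q ∈ ann f g w c r R, ‖G q‖ ≤ m := by
  obtain ⟨L, hL⟩ := (isCompact_closedBall c R).exists_bound_of_continuousOn
    hf.continuous.continuousOn
  obtain ⟨c2, hc2⟩ := exists_large hg hgn (‖w‖ + L)
  obtain ⟨δ, hδ, hδ2⟩ := Metric.eventually_nhds_iff.1
    (hg.continuous.continuousAt.norm.eventually (lt_mem_nhds hc2))
  have hfar : ∀ q ∈ ann f g w c r R, δ ≤ ‖q.2 - c2‖ := by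
    intro q hq
    by_contra h
    have h1 := hδ2 (y := q.2) (by rw [dist_eq_norm]; linarith)
    have h2 := hL q.1 (by rw [mem_closedBall, dist_eq_norm]; exact hq.2.2)
    have h3 : g q.2 = w - f q.1 := by rw [← hq.1]; ring
    have h4 := norm_sub_le w (f q.1)
    rw [h3] at h1
    linarith
  intro p hp
  have hp2 : 0 < ‖p.2 - c2‖ := lt_of_lt_of_le hδ (hfar p hp)
  refine le_of_pow_mul_le (κ := δ / ‖p.2 - c2‖) (by positivity) hm fun N => ?_
  have hnorm : ∀ q : ℂ × ℂ, ‖G q ^ N * ((δ : ℂ) / (q.2 - c2))‖ = ‖G q‖ ^ N * (δ / ‖q.2 - c2‖) := by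
    intro q
    rw [norm_mul, norm_pow, norm_div, Complex.norm_real, Real.norm_of_nonneg hδ.le]
  rw [← hnorm]
  refine curve_max hf hfn hg hgn (c2 := c2) (B := M ^ N * δ) (pow_nonneg hm N)
    (G := fun q => G q ^ N * ((δ : ℂ) / (q.2 - c2))) (fun q hq => ?_) (fun q hq => ?_)
    (fun q hq h => ?_) p hp
  · have h0 : q.2 - c2 ≠ 0 := norm_pos_iff.1 (lt_of_lt_of_le hδ (hfar q hq))
    have h1 : ∀ᶠ q' : ℂ × ℂ in 𝓝 q, q'.2 - c2 ≠ 0 :=
      (show ContinuousAt (fun q' : ℂ × ℂ => q'.2 - c2) q by fun_prop).eventually_ne h0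
    filter_upwards [hG q hq, h1] with q' h2 h3
    have h4 : DifferentiableAt ℂ (fun q : ℂ × ℂ => (q.2 - c2)⁻¹) q' :=
      DifferentiableAt.inv (by fun_prop) h3
    simp only [div_eq_mul_inv]
    exact (h2.pow N).mul (h4.const_mul _)
  · have h0 : 0 < ‖q.2 - c2‖ := lt_of_lt_of_le hδ (hfar q hq)
    rw [hnorm, mul_assoc, div_mul_cancel₀ _ h0.ne']
    exact mul_le_mul_of_nonneg_right (pow_le_pow_left₀ (norm_nonneg _) (hB q hq) N) hδ.le
  · have h0 : 0 < ‖q.2 - c2‖ := lt_of_lt_of_le hδ (hfar q hq)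
    rw [hnorm]
    have h1 : δ / ‖q.2 - c2‖ ≤ 1 := (div_le_one h0).2 (hfar q hq)
    have h2 := pow_le_pow_left₀ (norm_nonneg _) (hbd q hq h) N
    calc ‖G q‖ ^ N * (δ / ‖q.2 - c2‖) ≤ ‖G q‖ ^ N * 1 :=
          mul_le_mul_of_nonneg_left h1 (by positivity)
      _ ≤ m ^ N := by rw [mul_one]; exact h2

theorem two_const (hf : Differentiable ℂ f) (hfn : ∃ a b, f a ≠ f b)
    (hg : Differentiable ℂ g) (hgn : ∃ a b, g a ≠ g b) {w c : ℂ} {r M ε : ℝ} (hr : 0 < r)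
    (hε : 0 < ε) {h : ℂ × ℂ → ℂ} (hh : Differentiable ℂ h)
    (hM : ∀ q : ℂ × ℂ, f q.1 + g q.2 = w → ‖h q‖ ≤ M)
    (hs : ∀ q : ℂ × ℂ, f q.1 + g q.2 = w → ‖q.1 - c‖ ≤ r → ‖h q‖ ≤ ε) :
    ∀ q : ℂ × ℂ, f q.1 + g q.2 = w → ‖h q‖ ≤ ε := by
  intro p hp
  by_cases hpr : ‖p.1 - c‖ ≤ r
  · exact hs p hp hpr
  push Not at hpr
  have hM0 : 0 ≤ M := (norm_nonneg _).trans (hM p hp)
  have hp0 : 0 < ‖p.1 - c‖ := hr.trans hpr
  refine le_of_pow_mul_le (κ := r / ‖p.1 - c‖) (by positivity) hε.le fun N => ?_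
  have hnorm : ∀ q : ℂ × ℂ, ‖h q ^ N * ((r : ℂ) / (q.1 - c))‖ = ‖h q‖ ^ N * (r / ‖q.1 - c‖) := by
    intro q
    rw [norm_mul, norm_pow, norm_div, Complex.norm_real, Real.norm_of_nonneg hr.le]
  rw [← hnorm]
  set R : ℝ := ‖p.1 - c‖ + M ^ N * r / ε ^ N with hR
  have hR1 : 0 ≤ M ^ N * r / ε ^ N := by positivity
  refine curve_max' hf hfn hg hgn (w := w) (c := c) (r := r) (R := R) (M := M ^ N) (by positivity)
    (G := fun q => h q ^ N * ((r : ℂ) / (q.1 - c))) (fun q hq => ?_) (fun q hq => ?_)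
    (fun q hq hb => ?_) p ⟨hp, hpr.le, by linarith⟩
  · have h0 : q.1 - c ≠ 0 := norm_pos_iff.1 (lt_of_lt_of_le hr hq.2.1)
    have h1 : ∀ᶠ q' : ℂ × ℂ in 𝓝 q, q'.1 - c ≠ 0 :=
      (show ContinuousAt (fun q' : ℂ × ℂ => q'.1 - c) q by fun_prop).eventually_ne h0
    filter_upwards [h1] with q' h3
    have h4 : DifferentiableAt ℂ (fun q : ℂ × ℂ => (q.1 - c)⁻¹) q' :=
      DifferentiableAt.inv (by fun_prop) h3
    simp only [div_eq_mul_inv]
    exact ((hh q').pow N).mul (h4.const_mul _)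
  · have h0 : 0 < ‖q.1 - c‖ := lt_of_lt_of_le hr hq.2.1
    rw [hnorm]
    have h1 : r / ‖q.1 - c‖ ≤ 1 := (div_le_one h0).2 hq.2.1
    have h2 := pow_le_pow_left₀ (norm_nonneg _) (hM q hq.1) N
    calc ‖h q‖ ^ N * (r / ‖q.1 - c‖) ≤ ‖h q‖ ^ N * 1 :=
          mul_le_mul_of_nonneg_left h1 (by positivity)
      _ ≤ M ^ N := by rw [mul_one]; exact h2
  · rw [hnorm]
    rcases hb with hb | hb
    · rw [hb, div_self hr.ne', mul_one]
      exact pow_le_pow_left₀ (norm_nonneg _) (hs q hq.1 hb.le) N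
    · have h2 := pow_le_pow_left₀ (norm_nonneg _) (hM q hq.1) N
      have hR0 : 0 < R := by linarith
      have hεN : 0 < ε ^ N := by positivity
      rw [hb]
      have h3 : M ^ N * r / ε ^ N ≤ R := by linarith
      rw [div_le_iff₀ hεN] at h3
      calc ‖h q‖ ^ N * (r / R) ≤ M ^ N * (r / R) :=
            mul_le_mul_of_nonneg_right h2 (by positivity)
        _ = M ^ N * r / R := by ring
        _ ≤ ε ^ N := by rw [div_le_iff₀ hR0]; linarith

variable {f1 f2 f3 : ℂ → ℂ} {F : ℂ → ℂ → ℂ → ℂ} {C : ℝ}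

theorem claimA (h1 : Differentiable ℂ f1) (n1 : ∃ a b, f1 a ≠ f1 b)
    (h2 : Differentiable ℂ f2) (n2 : ∃ a b, f2 a ≠ f2 b) (h3 : Differentiable ℂ f3)
    (hF : Differentiable ℂ fun p : ℂ × ℂ × ℂ => F p.1 p.2.1 p.2.2)
    (hC : ∀ x y z, f1 x + f2 y + f3 z = 0 → ‖F x y z‖ ≤ C)
    {x y z z' : ℂ} (hV : f1 x + f2 y + f3 z = 0) (hz : f3 z' = f3 z) : F x y z' = F x y z := by
  have hC0 : 0 ≤ C := (norm_nonneg _).trans (hC x y z hV)
  rw [← sub_eq_zero, ← norm_le_zero_iff]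
  refine le_of_forall_pos_le_add fun ε hε => ?_
  rw [zero_add]
  set ρ : ℝ := dist z' z + 1 + 2 * C * dist z' z / ε with hρ
  have hd0 : 0 ≤ dist z' z := dist_nonneg
  have hρ1 : 0 ≤ 2 * C * dist z' z / ε := by positivity
  have hρ0 : 0 < ρ := by linarith
  obtain ⟨L, hL⟩ := (isCompact_closedBall z ρ).exists_bound_of_continuousOn
    (f := fun ζ => f3 z - f3 ζ) (continuous_const.sub h3.continuous).continuousOn
  have hL0 : 0 ≤ L := (norm_nonneg _).trans (hL z (mem_closedBall_self hρ0.le))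
  obtain ⟨a, φ, hφd, hφr, hφl⟩ := bloch h1 n1 (R := L + 1) (by linarith)
  have hnear : ∀ᶠ x1 in 𝓝 a, ‖f1 x1 - f1 a‖ < 1 := by
    have : ContinuousAt (fun x1 => ‖f1 x1 - f1 a‖) a :=
      (h1.continuous.continuousAt.sub continuousAt_const).norm
    exact this.eventually (gt_mem_nhds (by simp))
  obtain ⟨r, hr, hr2⟩ := nhds_basis_closedBall.eventually_iff.1 (hφl.and hnear)
  refine two_const h1 n1 h2 n2 (w := -f3 z) (c := a) (M := C + C) hr hε
    (h := fun q => F q.1 q.2 z' - F q.1 q.2 z) ?_ (fun q hq => ?_) (fun q hq hqr => ?_) (x, y)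
    (by linear_combination hV)
  · exact (hF.comp (by fun_prop : Differentiable ℂ fun q : ℂ × ℂ => (q.1, q.2, z'))).sub
      (hF.comp (by fun_prop : Differentiable ℂ fun q : ℂ × ℂ => (q.1, q.2, z)))
  · exact (norm_sub_le _ _).trans (add_le_add (hC _ _ _ (by linear_combination hq + hz))
      (hC _ _ _ (by linear_combination hq)))
  · obtain ⟨e1, e2⟩ := hr2 (x := q.1) (by rw [mem_closedBall, dist_eq_norm]; exact hqr)
    have hmem : ∀ ζ ∈ ball z ρ, f1 q.1 + (f3 z - f3 ζ) ∈ ball (f1 a) (L + 1) := by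
      intro ζ hζ
      rw [mem_ball, dist_eq_norm]
      have e3 : f1 q.1 + (f3 z - f3 ζ) - f1 a = (f1 q.1 - f1 a) + (f3 z - f3 ζ) := by ring
      have := norm_add_le (f1 q.1 - f1 a) (f3 z - f3 ζ)
      have := hL ζ (ball_subset_closedBall hζ)
      rw [e3]
      linarith
    let G : ℂ → ℂ := fun ζ => F (φ (f1 q.1 + (f3 z - f3 ζ))) q.2 ζ
    have hGd : DifferentiableOn ℂ G (ball z ρ) := by
      have h4 : DifferentiableOn ℂ (fun ζ => φ (f1 q.1 + (f3 z - f3 ζ))) (ball z ρ) :=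
        hφd.comp (by fun_prop) hmem
      exact hF.comp_differentiableOn
        (h4.prodMk ((differentiableOn_const q.2).prodMk differentiableOn_id))
    have hGb : ∀ ζ ∈ ball z ρ, ‖G ζ‖ ≤ C := fun ζ hζ =>
      hC _ _ _ (by rw [hφr _ (hmem ζ hζ)]; linear_combination hq)
    have h5 := Complex.dist_le_div_mul_dist_of_mapsTo_ball (f := G) (c := z) (z := z') (R₁ := ρ)
      (R₂ := 2 * C) hGd (fun ζ hζ => by
        rw [mem_closedBall, dist_eq_norm]
        have := norm_sub_le (G ζ) (G z)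
        have := hGb ζ hζ
        have := hGb z (mem_ball_self hρ0)
        linarith) (by rw [mem_ball]; linarith)
    have g1 : G z = F q.1 q.2 z := by simp only [G, sub_self, add_zero, e1]
    have g2 : G z' = F q.1 q.2 z' := by simp only [G, hz, sub_self, add_zero, e1]
    rw [dist_eq_norm, g1, g2] at h5
    refine h5.trans ?_
    have h6 : 2 * C * dist z' z / ε ≤ ρ := by linarith
    rw [div_le_iff₀ hε] at h6
    rw [div_mul_eq_mul_div, div_le_iff₀ hρ0]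
    linarith

theorem claimB (h1 : Differentiable ℂ f1) (n1 : ∃ a b, f1 a ≠ f1 b)
    (h2 : Differentiable ℂ f2) (n2 : ∃ a b, f2 a ≠ f2 b)
    (h3 : Differentiable ℂ f3) (n3 : ∃ a b, f3 a ≠ f3 b)
    (hF : Differentiable ℂ fun p : ℂ × ℂ × ℂ => F p.1 p.2.1 p.2.2)
    (hC : ∀ x y z, f1 x + f2 y + f3 z = 0 → ‖F x y z‖ ≤ C)
    {x y x' y' z : ℂ} (hV : f1 x + f2 y + f3 z = 0) (hV' : f1 x' + f2 y' + f3 z = 0) :
    F x' y' z = F x y z := by
  have hA : ∀ x1 y1 y2, f1 x1 + f2 y1 + f3 z = 0 → f2 y2 = f2 y1 → F x1 y2 z = F x1 y1 z := by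
    intro x1 y1 y2 e1 e2
    exact claimA (F := fun x z y => F x y z) (C := C) h1 n1 h3 n3 h2
      (hF.comp (by fun_prop : Differentiable ℂ fun p : ℂ × ℂ × ℂ => (p.1, p.2.2, p.2.1)))
      (fun x z y h => hC x y z (by linear_combination h)) (by linear_combination e1) e2
  rw [← sub_eq_zero, ← norm_le_zero_iff]
  refine le_of_forall_pos_le_add fun ε hε => ?_
  rw [zero_add]
  have hh : Differentiable ℂ fun q : ℂ × ℂ => F q.1 q.2 z - F x y z :=
    (hF.comp (by fun_prop : Differentiable ℂ fun q : ℂ × ℂ => (q.1, q.2, z))).sub_const _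
  have hc : ∀ᶠ q : ℂ × ℂ in 𝓝 (x, y), ‖F q.1 q.2 z - F x y z‖ < ε :=
    hh.continuous.continuousAt.norm.eventually (gt_mem_nhds (by simpa using hε))
  rw [nhds_prod_eq] at hc
  obtain ⟨pa, hpa, pb, hpb, hab⟩ := eventually_prod_iff.1 hc
  have him : f2 '' {y2 | pb y2} ∈ 𝓝 (f2 y) := (isOpenMap_of h2 n2).image_mem_nhds hpb
  have ht : Tendsto (fun x1 => -f3 z - f1 x1) (𝓝 x) (𝓝 (f2 y)) := by
    have e : f2 y = -f3 z - f1 x := by linear_combination hV
    rw [e]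
    exact (continuous_const.sub h1.continuous).continuousAt.tendsto
  obtain ⟨r, hr, hr2⟩ := nhds_basis_closedBall.eventually_iff.1 (hpa.and (ht.eventually him))
  refine two_const h1 n1 h2 n2 (w := -f3 z) (c := x) (M := C + C) hr hε hh (fun q hq => ?_)
    (fun q hq hqr => ?_) (x', y') (by linear_combination hV')
  · exact (norm_sub_le _ _).trans (add_le_add (hC _ _ _ (by linear_combination hq))
      (hC _ _ _ hV))
  · obtain ⟨e1, y2, e2, e3⟩ := hr2 (x := q.1) (by rw [mem_closedBall, dist_eq_norm]; exact hqr)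
    have e4 := hA q.1 q.2 y2 (by linear_combination hq) (by linear_combination e3 - hq)
    rw [← e4]
    exact (hab e1 e2).le

theorem main (h1 : Differentiable ℂ f1) (n1 : ∃ a b, f1 a ≠ f1 b)
    (h2 : Differentiable ℂ f2) (n2 : ∃ a b, f2 a ≠ f2 b)
    (h3 : Differentiable ℂ f3) (n3 : ∃ a b, f3 a ≠ f3 b)
    (hF : Differentiable ℂ fun p : ℂ × ℂ × ℂ => F p.1 p.2.1 p.2.2)
    (hC : ∀ x y z, f1 x + f2 y + f3 z = 0 → ‖F x y z‖ ≤ C)
    {x y z x' y' z' : ℂ} (hV : f1 x + f2 y + f3 z = 0) (hV' : f1 x' + f2 y' + f3 z' = 0) :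
    F x y z = F x' y' z' := by
  have o1 : IsOpen (range f1) := (isOpenMap_of h1 n1).isOpen_range
  have o2 : IsOpen (range f2) := (isOpenMap_of h2 n2).isOpen_range
  let s1 : ℂ ≃ₜ ℂ := Homeomorph.subLeft (-f2 y)
  let s2 : ℂ ≃ₜ ℂ := Homeomorph.subLeft (-f1 x')
  have d1 : Dense (s1 ⁻¹' range f1) := (dense_range h1 n1).preimage s1.isOpenMap
  have d2 : Dense (s2 ⁻¹' range f2) := (dense_range h2 n2).preimage s2.isOpenMap
  have d3 := ((dense_range h3 n3).inter_of_isOpen_right d1 (o1.preimage s1.continuous)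
    ).inter_of_isOpen_right d2 (o2.preimage s2.continuous)
  obtain ⟨u, ⟨⟨y3, e3⟩, y1, e1⟩, y2, e2⟩ := d3.nonempty
  have e1' : f1 y1 = -f2 y - u := e1
  have e2' : f2 y2 = -f1 x' - u := e2
  have v1 : f1 y1 + f2 y + f3 y3 = 0 := by linear_combination e1' + e3
  have v2 : f1 x' + f2 y2 + f3 y3 = 0 := by linear_combination e2' + e3
  have k1 : F y1 y y3 = F x y z :=
    claimB (F := fun x z y => F x y z) (C := C) h1 n1 h3 n3 h2 n2
      (hF.comp (by fun_prop : Differentiable ℂ fun p : ℂ × ℂ × ℂ => (p.1, p.2.2, p.2.1)))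
      (fun x z y h => hC x y z (by linear_combination h)) (by linear_combination hV)
      (by linear_combination v1)
  have k2 : F x' y2 y3 = F y1 y y3 := claimB h1 n1 h2 n2 h3 n3 hF hC v1 v2
  have k3 : F x' y' z' = F x' y2 y3 :=
    claimB (F := fun y z x => F x y z) (C := C) h2 n2 h3 n3 h1 n1
      (hF.comp (by fun_prop : Differentiable ℂ fun p : ℂ × ℂ × ℂ => (p.2.2, p.1, p.2.1)))
      (fun y z x h => hC x y z (by linear_combination h)) (by linear_combination v2)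
      (by linear_combination hV')
  rw [k3, k2, k1]

end Pool.Agent.H679Z.Rubel
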